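import Mathlib

/-!
# An additive MRD code that contains no copy of the field spread set

The code consists of the `3 × 3` matrices over the field with four elements that are orthogonal,
with respect to the trace form over `F_2`, to an additive spread set which is not closed under
multiplication by scalars. Every set equivalent to a field spread set is closed under multiplication
by scalars, and it contains a matrix with any prescribed first column. But for a matrix `A` of the
code with first column `(1, 0, 0)` either `A` is singular or `ω A` is not in the code.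
-/

set_option autoImplicit false

namespace Pool.Agent.Results.MP_bf8bcd_co.NoFieldSpreadSet

/-- The minimum distance of a set `C` of `n × n` matrices with respect to the rank distance
`d(A, B) = rank (A - B)` is `d`. -/
def HasMinDist {F : Type} [Field F] {n : ℕ} (C : Set (Matrix (Fin n) (Fin n) F)) (d : ℕ) : Prop :=
  IsLeast {r | ∃ A ∈ C, ∃ B ∈ C, A ≠ B ∧ (A - B).rank = r} d

/-- `C` is an additive MRD code of `n × n` matrices over `F` with minimum distance `d`: an additive
subgroup with minimum distance `d` and `q ^ (n (n - d + 1))` elements, `q = |F|`. -/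
def IsAdditiveMRD {F : Type} [Field F] {n : ℕ} (C : AddSubgroup (Matrix (Fin n) (Fin n) F))
    (d : ℕ) : Prop :=
  HasMinDist (C : Set (Matrix (Fin n) (Fin n) F)) d ∧ Nat.card C = Nat.card F ^ (n * (n - d + 1))

/-- `S` is a field spread set: the set of the matrices of the maps `x ↦ a x`, `a ∈ K`, with respect
to a basis of an extension field `K` of `F` of degree `n`. -/
def IsFieldSpreadSet {F : Type} [Field F] {n : ℕ} (S : Set (Matrix (Fin n) (Fin n) F)) : Prop :=
  ∃ (K : Type) (_ : Field K) (_ : Algebra F K) (b : Module.Basis (Fin n) F K),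
    S = Set.range fun a : K => Algebra.leftMulMatrix b a

/-- `T` is equivalent to `S`: it is the set of all `P X^σ Q` with `X ∈ S`, or the set of all
`P (X^σ)ᵀ Q` with `X ∈ S`, for some invertible `P`, `Q` and a field automorphism `σ`. -/
def Equivalent {F : Type} [Field F] {n : ℕ} (S T : Set (Matrix (Fin n) (Fin n) F)) : Prop :=
  ∃ (P Q : GL (Fin n) F) (σ : F ≃+* F),
    T = (fun X : Matrix (Fin n) (Fin n) F => P.1 * X.map σ * Q.1) '' S ∨
    T = (fun X : Matrix (Fin n) (Fin n) F => P.1 * (X.map σ).transpose * Q.1) '' S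

/-! ### The field with four elements -/

/-- the element `a + b ω` of the field with four elements, `ω² = ω + 1` -/
@[ext] structure F4 where
  a : Bool
  b : Bool
deriving DecidableEq

namespace F4

instance : Fintype F4 :=
  ⟨⟨Multiset.ofList [⟨false, false⟩, ⟨true, false⟩, ⟨false, true⟩, ⟨true, true⟩], by decide⟩, by
    rintro ⟨a, b⟩
    revert a b
    decide⟩

instance : Add F4 := ⟨fun x y => ⟨x.a ^^ y.a, x.b ^^ y.b⟩⟩
instance : Mul F4 := ⟨fun x y => ⟨(x.a && y.a) ^^ (x.b && y.b),
  ((x.a && y.b) ^^ (x.b && y.a)) ^^ (x.b && y.b)⟩⟩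
instance : Neg F4 := ⟨fun x => x⟩
instance : Zero F4 := ⟨⟨false, false⟩⟩
instance : One F4 := ⟨⟨true, false⟩⟩
instance : Inv F4 := ⟨fun x => ⟨x.a ^^ x.b, x.b⟩⟩

instance : Field F4 := Field.ofMinimalAxioms F4
  (by decide) (by decide) (by decide) (by decide) (by decide) (by decide) (by decide) (by decide)
  (by decide) ⟨0, 1, by decide⟩

end F4

lemma card_F4 : Nat.card F4 = 4 := by
  rw [Nat.card_eq_fintype_card]
  rfl

abbrev M3 := Matrix (Fin 3) (Fin 3) F4

def bz (t : Bool) : ZMod 2 := if t then 1 else 0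

lemma bz_xor (a b : Bool) : bz (a ^^ b) = bz a + bz b := by revert a b; decide

lemma bz_and (a b : Bool) : bz (a && b) = bz a * bz b := by revert a b; decide

lemma bz_inj {a b : Bool} (h : bz a = bz b) : a = b := by revert a b; decide

/-- the masks defining the six functionals -/
def m : Fin 6 → ℕ := ![0x1897, 0x2ab5, 0x4ca4, 0x8e1a, 0x10d81, 0x207fb]

/-- the contribution of one entry to a functional -/
def ent (t k : ℕ) (x : F4) : Bool := (t.testBit (2 * k) && x.a) ^^ (t.testBit (2 * k + 1) && x.b)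

lemma ent_add (t k : ℕ) (x y : F4) : bz (ent t k (x + y)) = bz (ent t k x) + bz (ent t k y) := by
  have h1 : (x + y).a = (x.a ^^ y.a) := rfl
  have h2 : (x + y).b = (x.b ^^ y.b) := rfl
  simp only [ent, bz_xor, bz_and, h1, h2]
  ring

/-- the functional given by the mask `t` on the matrix with columns `x`, `y`, `z` -/
def fB (t : ℕ) (x0 x1 x2 y0 y1 y2 z0 z1 z2 : F4) : Bool :=
  ((((((((ent t 0 x0 ^^ ent t 1 x1) ^^ ent t 2 x2) ^^ ent t 3 y0) ^^ ent t 4 y1) ^^ ent t 5 y2)
    ^^ ent t 6 z0) ^^ ent t 7 z1) ^^ ent t 8 z2)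

def inB (x0 x1 x2 y0 y1 y2 z0 z1 z2 : F4) : Bool :=
  !(fB 0x1897 x0 x1 x2 y0 y1 y2 z0 z1 z2) && (!(fB 0x2ab5 x0 x1 x2 y0 y1 y2 z0 z1 z2) &&
  (!(fB 0x4ca4 x0 x1 x2 y0 y1 y2 z0 z1 z2) && (!(fB 0x8e1a x0 x1 x2 y0 y1 y2 z0 z1 z2) &&
  (!(fB 0x10d81 x0 x1 x2 y0 y1 y2 z0 z1 z2) && !(fB 0x207fb x0 x1 x2 y0 y1 y2 z0 z1 z2)))))

/-- the six functionals -/
def L : M3 →+ (Fin 6 → ZMod 2) where
  toFun A i := ∑ j : Fin 3, ∑ k : Fin 3, bz (ent (m i) (3 * (j : ℕ) + (k : ℕ)) (A k j))
  map_zero' := by
    ext i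
    have h : ∀ t k, ent t k 0 = false := by
      intro t k
      have h1 : (0 : F4).a = false := rfl
      have h2 : (0 : F4).b = false := rfl
      simp [ent, h1, h2]
    simp [h, bz]
  map_add' A B := by
    ext i
    simp only [Matrix.add_apply, ent_add, Finset.sum_add_distrib, Pi.add_apply]

lemma L_apply (A : M3) (i : Fin 6) : L A i = bz (fB (m i) (A 0 0) (A 1 0) (A 2 0) (A 0 1) (A 1 1)
    (A 2 1) (A 0 2) (A 1 2) (A 2 2)) := by
  simp only [L, AddMonoidHom.coe_mk, ZeroHom.coe_mk, Fin.sum_univ_three, fB, bz_xor, Fin.val_zero,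
    Fin.val_one, Fin.val_two]
  norm_num
  ring

/-- the code -/
def C : AddSubgroup M3 := L.ker

lemma inB_of_mem {A : M3} (h : A ∈ C) : inB (A 0 0) (A 1 0) (A 2 0) (A 0 1) (A 1 1)
    (A 2 1) (A 0 2) (A 1 2) (A 2 2) = true := by
  have h1 : ∀ i, fB (m i) (A 0 0) (A 1 0) (A 2 0) (A 0 1) (A 1 1)
      (A 2 1) (A 0 2) (A 1 2) (A 2 2) = false := by
    intro i
    have h2 := congrFun h i
    rw [L_apply] at h2
    exact bz_inj h2
  have h0 := h1 0
  have h1' := h1 1
  have h2 := h1 2
  have h3 := h1 3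
  have h4 := h1 4
  have h5 := h1 5
  simp only [m, Matrix.cons_val_zero, Matrix.cons_val_one, Matrix.cons_val] at h0 h1' h2 h3 h4 h5
  simp only [inB, h0, h1', h2, h3, h4, h5, Bool.not_false, Bool.and_self]

def ω : F4 := ⟨false, true⟩

set_option maxRecDepth 100000 in
/-- no matrix of rank one is in the code -/
lemma rank_one_free : ∀ u0 u1 u2 w0 w1 w2 : F4, inB (u0 * w0) (u1 * w0) (u2 * w0)
    (u0 * w1) (u1 * w1) (u2 * w1) (u0 * w2) (u1 * w2) (u2 * w2) = true →
    (u0 = 0 ∧ u1 = 0 ∧ u2 = 0) ∨ (w0 = 0 ∧ w1 = 0 ∧ w2 = 0) := by decide +kernel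

set_option maxRecDepth 100000 in
/-- the matrices of the code with first column `(1, 0, 0)` -/
lemma first_col : ∀ y0 y1 y2 z0 z1 z2 : F4, inB 1 0 0 y0 y1 y2 z0 z1 z2 = true →
    inB ω 0 0 (ω * y0) (ω * y1) (ω * y2) (ω * z0) (ω * z1) (ω * z2) = true →
    y1 * z2 = z1 * y2 := by decide +kernel

/-! ### The code is an MRD code with minimum distance 2 -/

lemma two_le (A : M3) (hA : A ∈ C) (h0 : A ≠ 0) : 2 ≤ A.rank := by
  by_contra hcon
  have h1 : Module.finrank F4 (Submodule.span F4 (Set.range A.col)) ≤ 1 := by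
    rw [← Matrix.rank_eq_finrank_span_cols]
    omega
  obtain ⟨u, hu⟩ := finrank_le_one_iff.1 h1
  have h2 : ∀ j, ∃ c : F4, c • (u : Fin 3 → F4) = A.col j := by
    intro j
    obtain ⟨c, hc⟩ := hu ⟨A.col j, Submodule.subset_span ⟨j, rfl⟩⟩
    exact ⟨c, congrArg Subtype.val hc⟩
  choose w hw using h2
  have h3 : ∀ i j, A i j = (u : Fin 3 → F4) i * w j := by
    intro i j
    have := congrFun (hw j) i
    rw [Pi.smul_apply, smul_eq_mul] at this
    rw [mul_comm]
    exact this.symm
  have h4 := inB_of_mem hA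
  simp only [h3] at h4
  rcases rank_one_free _ _ _ _ _ _ h4 with ⟨a, b, c⟩ | ⟨a, b, c⟩
  · apply h0
    ext1 i j
    rw [h3]
    fin_cases i <;> simp [a, b, c]
  · apply h0
    ext1 i j
    rw [h3]
    fin_cases j <;> simp [a, b, c]

lemma card_C : Nat.card C = 4096 := by
  have hsurj : Function.Surjective L := by
    intro y
    let g : Fin 3 → F4 := fun k => ⟨decide (y ⟨2 * (k : ℕ), by omega⟩ = 1),
      decide (y ⟨2 * (k : ℕ) + 1, by omega⟩ = 1)⟩
    refine ⟨Matrix.of fun i j => if j = 2 then g i else 0, ?_⟩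
    have hb : ∀ a : ZMod 2, bz (decide (a = 1)) = a := by decide
    have h0a : (0 : F4).a = false := rfl
    have h0b : (0 : F4).b = false := rfl
    ext i
    rw [L_apply]
    simp only [Matrix.of_apply, fB, ent, bz_xor, bz_and, if_true, show (0 : Fin 3) ≠ 2 by decide,
      show (1 : Fin 3) ≠ 2 by decide, if_false, h0a, h0b, g, hb]
    have e0 : bz false = 0 := rfl
    simp only [e0, mul_zero, add_zero, zero_add]
    fin_cases i <;> simp [m, bz, Nat.testBit]
  have h1 : Nat.card L.range = 64 := by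
    rw [AddMonoidHom.range_eq_top.2 hsurj]
    have : Nat.card (⊤ : AddSubgroup (Fin 6 → ZMod 2)) = Nat.card (Fin 6 → ZMod 2) :=
      AddSubgroup.card_top
    rw [this]
    simp
  have h2 : Nat.card M3 = 262144 := by
    have h3 : Nat.card M3 = Nat.card (Fin 3 → Fin 3 → F4) := rfl
    rw [h3]
    simp only [Nat.card_pi, card_F4]
    norm_num
  have h3 : Nat.card (M3 ⧸ L.ker) = 64 := by
    rw [← h1]
    exact Nat.card_congr (QuotientAddGroup.quotientKerEquivRange L).toEquiv
  have h4 := AddSubgroup.card_eq_card_quotient_mul_card_addSubgroup L.ker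
  rw [h2, h3] at h4
  show Nat.card L.ker = 4096
  omega

/-! ### Copies of the field spread set -/

lemma no_copy {K : Type} [Field K] (hK : Nat.card K = 64) (Φ : K →+ M3)
    (hdet : ∀ a, a ≠ 0 → (Φ a).det ≠ 0) (hs : ∀ (c : F4) (a : K), ∃ a', Φ a' = c • Φ a)
    (hC : ∀ a, Φ a ∈ C) : False := by
  have : Finite K := Nat.finite_of_card_ne_zero (by rw [hK]; norm_num)
  have : Fintype K := Fintype.ofFinite K
  have hinj : Function.Injective fun a : K => (Φ a).col 0 := by
    intro a b hab
    by_contra hne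
    apply hdet (a - b) (sub_ne_zero.2 hne)
    apply Matrix.det_eq_zero_of_column_eq_zero 0
    intro i
    rw [map_sub, Matrix.sub_apply, sub_eq_zero]
    exact congrFun hab i
  have hsurj : Function.Surjective fun a : K => (Φ a).col 0 := by
    have hb : Function.Bijective fun a : K => (Φ a).col 0 := by
      rw [Fintype.bijective_iff_injective_and_card]
      refine ⟨hinj, ?_⟩
      rw [← Nat.card_eq_fintype_card, hK]
      rfl
    exact hb.2
  obtain ⟨a, ha⟩ := hsurj ![1, 0, 0]
  have h0 : (Φ a) 0 0 = 1 := congrFun ha 0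
  have h1 : (Φ a) 1 0 = 0 := congrFun ha 1
  have h2 : (Φ a) 2 0 = 0 := congrFun ha 2
  have ha0 : a ≠ 0 := by
    rintro rfl
    rw [map_zero] at h0
    exact absurd h0 (by decide)
  obtain ⟨a', ha'⟩ := hs ω a
  have h3 := inB_of_mem (hC a)
  have h4 := inB_of_mem (hC a')
  rw [ha'] at h4
  simp only [Matrix.smul_apply, smul_eq_mul, h0, h1, h2, mul_one, mul_zero] at h3 h4
  have h5 := first_col _ _ _ _ _ _ h3 h4
  apply hdet a ha0
  rw [Matrix.det_fin_three, h0, h1, h2]
  linear_combination h5

/-- There is an additive MRD code of `3 × 3` matrices over the field with four elements with minimum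
distance 2 that contains no set equivalent to a field spread set. -/
theorem result : ∃ (F : Type) (_ : Field F), Nat.card F = 4 ∧
    ∃ C : AddSubgroup (Matrix (Fin 3) (Fin 3) F), IsAdditiveMRD C 2 ∧
      ∀ S T : Set (Matrix (Fin 3) (Fin 3) F), IsFieldSpreadSet S → Equivalent S T →
        ¬ T ⊆ (C : Set (Matrix (Fin 3) (Fin 3) F)) := by
  refine ⟨F4, inferInstance, card_F4, C, ⟨⟨?_, ?_⟩, ?_⟩, ?_⟩
  · let R : M3 := Matrix.of fun i j => if i = 0 ∧ j = 1 then 1 else if i = 2 ∧ j = 2 then ω else 0
    have hmem : R ∈ C := by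
      show L R = 0
      ext i
      rw [L_apply]
      revert i
      decide
    have h0 : R ≠ 0 := by
      intro h
      have := congrFun (congrFun h 0) 1
      revert this
      decide
    refine ⟨R, hmem, 0, C.zero_mem, h0, ?_⟩
    rw [sub_zero]
    refine le_antisymm ?_ (two_le _ hmem h0)
    have h3 := LinearMap.finrank_range_add_finrank_ker R.mulVecLin
    rw [Module.finrank_fin_fun] at h3
    have h4 : 0 < Module.finrank F4 (LinearMap.ker R.mulVecLin) := by
      rw [Module.finrank_pos_iff_exists_ne_zero]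
      refine ⟨⟨Pi.single 0 1, ?_⟩, ?_⟩
      · show R.mulVec (Pi.single 0 1) = 0
        ext1 i
        rw [Matrix.mulVec_single_one]
        revert i
        decide
      · intro h
        have h5 := congrFun (congrArg Subtype.val h) 0
        rw [show ((0 : LinearMap.ker R.mulVecLin) : Fin 3 → F4) = 0 from rfl] at h5
        simp at h5
    rw [Matrix.rank]
    omega
  · rintro r ⟨A, hA, B, hB, hAB, rfl⟩
    exact two_le _ (C.sub_mem hA hB) (fun h => hAB (sub_eq_zero.1 h))
  · rw [card_C, card_F4]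
    norm_num
  · rintro S T ⟨K, _, _, b, rfl⟩ ⟨P, Q, σ, hT⟩ hTC
    have hK : Nat.card K = 64 := by
      rw [Nat.card_congr b.equivFun.toEquiv, Nat.card_eq_fintype_card]
      rfl
    have hPQ : P.1.det ≠ 0 ∧ Q.1.det ≠ 0 :=
      ⟨((Matrix.isUnit_iff_isUnit_det _).1 P.isUnit).ne_zero,
        ((Matrix.isUnit_iff_isUnit_det _).1 Q.isUnit).ne_zero⟩
    have hX : ∀ a : K, a ≠ 0 → ((Algebra.leftMulMatrix b a).map σ).det ≠ 0 := by
      intro a ha
      have h1 : IsUnit (Algebra.leftMulMatrix b a) := (IsUnit.mk0 a ha).map (Algebra.leftMulMatrix b)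
      have h2 : (Algebra.leftMulMatrix b a).det ≠ 0 := ((Matrix.isUnit_iff_isUnit_det _).1 h1).ne_zero
      have h3 : ((Algebra.leftMulMatrix b a).map σ).det = σ (Algebra.leftMulMatrix b a).det := by
        have := RingHom.map_det (σ : F4 →+* F4) (Algebra.leftMulMatrix b a)
        exact this.symm
      rw [h3]
      exact (map_ne_zero σ).2 h2
    have hsm : ∀ (c : F4) (a : K), (Algebra.leftMulMatrix b (σ.symm c • a)).map σ =
        c • (Algebra.leftMulMatrix b a).map σ := by
      intro c a
      rw [map_smul]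
      ext1 i j
      simp [Matrix.map_apply, Matrix.smul_apply, smul_eq_mul]
    rcases hT with rfl | rfl
    · let Φ : K →+ M3 :=
        { toFun := fun a => P.1 * (Algebra.leftMulMatrix b a).map σ * Q.1
          map_zero' := by
            rw [map_zero, Matrix.map_zero _ (map_zero σ), Matrix.mul_zero, Matrix.zero_mul]
          map_add' := fun x y => by
            rw [map_add, Matrix.map_add _ (map_add σ), Matrix.mul_add, Matrix.add_mul] }
      refine no_copy hK Φ ?_ ?_ ?_
      · intro a ha
        show (P.1 * (Algebra.leftMulMatrix b a).map σ * Q.1).det ≠ 0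
        rw [Matrix.det_mul, Matrix.det_mul]
        exact mul_ne_zero (mul_ne_zero hPQ.1 (hX a ha)) hPQ.2
      · intro c a
        refine ⟨σ.symm c • a, ?_⟩
        show P.1 * (Algebra.leftMulMatrix b (σ.symm c • a)).map σ * Q.1 =
          c • (P.1 * (Algebra.leftMulMatrix b a).map σ * Q.1)
        rw [hsm, Matrix.mul_smul, Matrix.smul_mul]
      · intro a
        exact hTC ⟨_, ⟨a, rfl⟩, rfl⟩
    · let Φ : K →+ M3 :=
        { toFun := fun a => P.1 * ((Algebra.leftMulMatrix b a).map σ).transpose * Q.1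
          map_zero' := by
            rw [map_zero, Matrix.map_zero _ (map_zero σ), Matrix.transpose_zero, Matrix.mul_zero,
              Matrix.zero_mul]
          map_add' := fun x y => by
            rw [map_add, Matrix.map_add _ (map_add σ), Matrix.transpose_add, Matrix.mul_add,
              Matrix.add_mul] }
      refine no_copy hK Φ ?_ ?_ ?_
      · intro a ha
        show (P.1 * ((Algebra.leftMulMatrix b a).map σ).transpose * Q.1).det ≠ 0
        rw [Matrix.det_mul, Matrix.det_mul, Matrix.det_transpose]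
        exact mul_ne_zero (mul_ne_zero hPQ.1 (hX a ha)) hPQ.2
      · intro c a
        refine ⟨σ.symm c • a, ?_⟩
        show P.1 * ((Algebra.leftMulMatrix b (σ.symm c • a)).map σ).transpose * Q.1 =
          c • (P.1 * ((Algebra.leftMulMatrix b a).map σ).transpose * Q.1)
        rw [hsm, Matrix.transpose_smul, Matrix.mul_smul, Matrix.smul_mul]
      · intro a
        exact hTC ⟨_, ⟨a, rfl⟩, rfl⟩

end Pool.Agent.Results.MP_bf8bcd_co.NoFieldSpreadSet
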